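import Pool.Agent.H335R3.ZF.Stmts

/-!
# Task P6-Unr of project ZP: contributions of the unramified points
-/

set_option autoImplicit false

open Pool.Agent.H639R3

namespace Pool.Agent.H335R3.ZF

namespace UnrProof

theorem res_eq_iff {L : Type} [Field L] (w : ValuationSubring L) (a b : w) :
    IsLocalRing.residue w a = IsLocalRing.residue w b ↔ w.valuation ((a : L) - b) < 1 := by
  rw [← sub_eq_zero, ← map_sub, IsLocalRing.residue_eq_zero_iff,
    ValuationSubring.valuation_lt_one_iff]
  rfl

theorem val_trans {L : Type} [Field L] (w : ValuationSubring L) {a b c : L}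
    (h1 : w.valuation (a - b) < 1) (h2 : w.valuation (b - c) < 1) : w.valuation (a - c) < 1 := by
  have h3 : a - c = (a - b) + (b - c) := by ring
  rw [h3]
  exact Valuation.map_add_lt _ h1 h2

theorem val_symm {L : Type} [Field L] (w : ValuationSubring L) {a b : L}
    (h1 : w.valuation (a - b) < 1) : w.valuation (b - a) < 1 := by
  rw [Valuation.map_sub_swap]
  exact h1

theorem val_pow {L : Type} [Field L] (w : ValuationSubring L) {a b : L} (ha : a ∈ w) (hb : b ∈ w)
    (h : w.valuation (a - b) < 1) (N : ℕ) : w.valuation (a ^ N - b ^ N) < 1 := by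
  have h1 := (res_eq_iff w ⟨a, ha⟩ ⟨b, hb⟩).2 h
  have h2 : IsLocalRing.residue w (⟨a, ha⟩ ^ N) = IsLocalRing.residue w (⟨b, hb⟩ ^ N) := by
    rw [map_pow, map_pow, h1]
  exact (res_eq_iff w _ _).1 h2

section

variable {k F M : Type} [Field k] [Field F] [Field M] [Algebra k F] [Algebra k M]

theorem card_residue [Finite k] (hF : IsCurve k F) (x : ClosedPoint k F) :
    Nat.card (IsLocalRing.ResidueField x.ring) = (Nat.card k) ^ x.deg := by
  let _ : Algebra k (IsLocalRing.ResidueField x.ring) := x.constHom.toAlgebra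
  have hfin : Module.Finite k (IsLocalRing.ResidueField x.ring) := x.finite_residue hF
  have : Fintype k := Fintype.ofFinite k
  have hf : Finite (IsLocalRing.ResidueField x.ring) := Module.finite_of_finite k
  have : Fintype (IsLocalRing.ResidueField x.ring) := Fintype.ofFinite _
  rw [Nat.card_eq_fintype_card, Nat.card_eq_fintype_card]
  exact Module.card_eq_pow_finrank

theorem finite_residue' [Finite k] (hF : IsCurve k F) (x : ClosedPoint k F) :
    Finite (IsLocalRing.ResidueField x.ring) := by
  let _ : Algebra k (IsLocalRing.ResidueField x.ring) := x.constHom.toAlgebra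
  have hfin : Module.Finite k (IsLocalRing.ResidueField x.ring) := x.finite_residue hF
  exact Module.finite_of_finite k

theorem deg_dvd_of_fixed [Finite k] (hF : IsCurve k F) (x : ClosedPoint k F) (N : ℕ)
    (h : ∀ r : IsLocalRing.ResidueField x.ring, r ^ (Nat.card k) ^ N = r) : x.deg ∣ N := by
  let _ : Algebra k (IsLocalRing.ResidueField x.ring) := x.constHom.toAlgebra
  have hf : Finite (IsLocalRing.ResidueField x.ring) := finite_residue' hF x
  have : Fintype k := Fintype.ofFinite k
  have h1 := FiniteField.orderOf_frobeniusAlgHom k (IsLocalRing.ResidueField x.ring)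
  have h2 : FiniteField.frobeniusAlgHom k (IsLocalRing.ResidueField x.ring) ^ N = 1 := by
    refine DFunLike.ext _ _ fun r => ?_
    rw [AlgHom.coe_pow, FiniteField.coe_frobeniusAlgHom, pow_iterate, AlgHom.one_apply,
      ← Nat.card_eq_fintype_card]
    exact h r
  have h3 := orderOf_dvd_iff_pow_eq_one.2 h2
  rw [h1] at h3
  exact h3

theorem deg_dvd_deg [Finite k] (hF : IsCurve k F) (hM : IsCurve k M) (x : ClosedPoint k F)
    (y : ClosedPoint k M) (f : IsLocalRing.ResidueField x.ring →+* IsLocalRing.ResidueField y.ring) :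
    x.deg ∣ y.deg := by
  have h1 : Finite (IsLocalRing.ResidueField x.ring) := finite_residue' hF x
  have h2 : Finite (IsLocalRing.ResidueField y.ring) := finite_residue' hM y
  have : Fintype (IsLocalRing.ResidueField x.ring) := Fintype.ofFinite _
  have : Fintype (IsLocalRing.ResidueField y.ring) := Fintype.ofFinite _
  let _ : Algebra (IsLocalRing.ResidueField x.ring) (IsLocalRing.ResidueField y.ring) := f.toAlgebra
  have h3 := Module.card_eq_pow_finrank (K := IsLocalRing.ResidueField x.ring)
    (V := IsLocalRing.ResidueField y.ring)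
  rw [← Nat.card_eq_fintype_card, ← Nat.card_eq_fintype_card, card_residue hF x,
    card_residue hM y, ← pow_mul] at h3
  have hq : 1 < Nat.card k := Finite.one_lt_card
  exact ⟨_, Nat.pow_right_injective hq h3⟩

theorem frob_pow_fixed [Finite k] (hF : IsCurve k F) (x : ClosedPoint k F) (N : ℕ)
    (h : x.deg ∣ N) (r : IsLocalRing.ResidueField x.ring) : r ^ (Nat.card k) ^ N = r := by
  obtain ⟨c, rfl⟩ := h
  induction c with
  | zero => simp
  | succ c ih =>
    rw [Nat.mul_succ, pow_add, pow_mul, ih, frob_fixed x (x.finite_residue hF) r]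

end

section

variable {p : ℕ} [Fact p.Prime] {k K L : Type} [Field k] [Field K] [Field L]
    [Algebra k K] [Algebra K L] [Algebra k L] [IsScalarTower k K L] (T : ZpTower p k K L)

theorem mv_nat (w : ValuationSubring L) (al : ℤ_[p]) (h : T.mv al w = w) (j : ℕ) :
    T.mv (j * al) w = w := by
  induction j with
  | zero => rw [Nat.cast_zero, zero_mul, ZpTower.mv_zero]
  | succ m ih => rw [Nat.cast_add, Nat.cast_one, add_mul, one_mul, ZpTower.mv_add, h, ih]

theorem mv_neg (w : ValuationSubring L) (z : ℤ_[p]) (h : T.mv z w = w) : T.mv (-z) w = w := by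
  conv_lhs => rw [← h]
  rw [← ZpTower.mv_add, neg_add_cancel, ZpTower.mv_zero]

theorem mem_of_mv (w : ValuationSubring L) (z : ℤ_[p]) (h : T.mv z w = w) (a : L) :
    a ∈ w ↔ T.aut z a ∈ w := by
  conv_lhs => rw [← h]
  rw [ZpTower.mem_mv]

/-- powers of the Frobenius element -/
theorem frobPow [Finite k] (x : ClosedPoint k K) (w : ValuationSubring L) (al : ℤ_[p])
    (hmv : T.mv al w = w)
    (hfr : ∀ a ∈ w, w.valuation (T.aut al a - a ^ (Nat.card k) ^ x.deg) < 1) (j : ℕ) :
    ∀ a ∈ w, w.valuation (T.aut (j * al) a - a ^ (Nat.card k) ^ (j * x.deg)) < 1 := by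
  induction j with
  | zero =>
    intro a _
    rw [Nat.cast_zero, zero_mul, ZpTower.aut_zero, Nat.zero_mul, pow_zero, pow_one, sub_self,
      map_zero]
    exact zero_lt_one
  | succ j ih =>
    intro a ha
    have hb : T.aut (j * al) a ∈ w := (mem_of_mv T w _ (mv_nat T w al hmv j) a).1 ha
    have h1 := hfr _ hb
    have h2 := val_pow w hb (pow_mem ha _) (ih a ha) ((Nat.card k) ^ x.deg)
    have h3 : T.aut ((j + 1 : ℕ) * al) a = T.aut al (T.aut (j * al) a) := by
      rw [Nat.cast_add, Nat.cast_one, add_mul, one_mul, ZpTower.aut_add]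
    have h4 : a ^ (Nat.card k) ^ ((j + 1) * x.deg) =
        (a ^ (Nat.card k) ^ (j * x.deg)) ^ (Nat.card k) ^ x.deg := by
      rw [← pow_mul, ← pow_add, add_mul, one_mul]
    rw [h3, h4]
    exact val_trans w h1 h2

theorem res_pt_iff (n : ℕ) (x : ClosedPoint k K) (w : ValuationSubring L)
    (hw : w.comap (algebraMap K L) = x.ring) (a b : (T.pt n x w hw).ring) :
    IsLocalRing.residue (T.pt n x w hw).ring a = IsLocalRing.residue (T.pt n x w hw).ring b ↔
      w.valuation (((a : T.layer n) : L) - ((b : T.layer n) : L)) < 1 := by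
  rw [res_eq_iff]
  exact comap_val_lt_one w (algebraMap (T.layer n) L) _

theorem dvd_iff [Finite k] (hIn : Inert) (n : ℕ) (x : ClosedPoint k K)
    (hx : IsUnramifiedIn L x) (w : ValuationSubring L)
    (hw : w.comap (algebraMap K L) = x.ring) (al : ℤ_[p]) (hmv : T.mv al w = w)
    (hfr : ∀ a ∈ w, w.valuation (T.aut al a - a ^ (Nat.card k) ^ x.deg) < 1) (j : ℕ) :
    (p : ℤ_[p]) ^ n ∣ j * al ↔ (T.pt n x w hw).deg ∣ j * x.deg := by
  set y := T.pt n x w hw with hy
  have hFP := frobPow T x w al hmv hfr j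
  constructor
  · rintro ⟨z, hz⟩
    apply deg_dvd_of_fixed (T.isCurve_layer n) y
    intro r
    obtain ⟨a, rfl⟩ := IsLocalRing.residue_surjective r
    rw [← map_pow]
    refine (res_pt_iff T n x w hw _ _).2 ?_
    have h1 := hFP ((a : T.layer n) : L) a.2
    have h2 : T.aut (j * al) ((a : T.layer n) : L) = ((a : T.layer n) : L) := by
      rw [hz]
      exact T.aut_fix n z _ (a : T.layer n).2
    rw [h2] at h1
    exact val_symm w h1
  · intro hD
    refine hIn p k K L T x hx w hw n (j * al) (mv_nat T w al hmv j) ?_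
    intro a ha haw
    have h1 := frob_pow_fixed (T.isCurve_layer n) y _ hD
      (IsLocalRing.residue y.ring ⟨⟨a, ha⟩, haw⟩)
    rw [← map_pow] at h1
    have h2 := (res_pt_iff T n x w hw _ _).1 h1
    exact val_trans w (hFP a haw) h2

theorem stab [Finite k] (hIn : Inert) (n : ℕ) (x : ClosedPoint k K)
    (hx : IsUnramifiedIn L x) (w : ValuationSubring L)
    (hw : w.comap (algebraMap K L) = x.ring) (al : ℤ_[p]) (hmv : T.mv al w = w)
    (hfr : ∀ a ∈ w, w.valuation (T.aut al a - a ^ (Nat.card k) ^ x.deg) < 1) (t : ℤ_[p])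
    (ht : T.mv t w = w) : ∃ j : ℕ, (p : ℤ_[p]) ^ n ∣ t - j * al := by
  classical
  set y := T.pt n x w hw with hy
  have hxy : ∀ a, a ∈ x.ring ↔ algebraMap K (T.layer n) a ∈ y.ring := by
    intro a
    rw [← hw]
    rfl
  let f : T.layer n →+* T.layer n :=
    (((T.aut t : L ≃ₐ[K] L) : L →+* L).comp (algebraMap (T.layer n) L)).codRestrict
      (T.layer n).toSubfield.toSubring fun a => T.aut_layer n t _ a.2
  have hf : ∀ a : T.layer n, ((f a : T.layer n) : L) = T.aut t (a : L) := fun a => rfl
  have hyy : ∀ a, a ∈ y.ring ↔ f a ∈ y.ring := by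
    intro a
    exact mem_of_mv T w t ht (a : L)
  have hfx : Finite (IsLocalRing.ResidueField x.ring) := finite_residue' T.curve x
  have hfy : Finite (IsLocalRing.ResidueField y.ring) := finite_residue' (T.isCurve_layer n) y
  have : Fintype (IsLocalRing.ResidueField x.ring) := Fintype.ofFinite _
  let _ : Algebra (IsLocalRing.ResidueField x.ring) (IsLocalRing.ResidueField y.ring) :=
    (resMap x y (algebraMap K (T.layer n)) hxy).toAlgebra
  let φ : IsLocalRing.ResidueField y.ring →ₐ[IsLocalRing.ResidueField x.ring]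
      IsLocalRing.ResidueField y.ring :=
    { resMap y y f hyy with
      commutes' := by
        intro r
        obtain ⟨a, rfl⟩ := IsLocalRing.residue_surjective r
        change resMap y y f hyy (resMap x y (algebraMap K (T.layer n)) hxy
          (IsLocalRing.residue x.ring a)) = resMap x y (algebraMap K (T.layer n)) hxy
          (IsLocalRing.residue x.ring a)
        rw [resMap_residue, resMap_residue]
        congr 1
        apply Subtype.ext
        apply Subtype.ext
        change T.aut t (algebraMap K L a) = algebraMap K L a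
        rw [AlgEquiv.commutes] }
  obtain ⟨j, hj⟩ := (FiniteField.bijective_frobeniusAlgHom_pow (IsLocalRing.ResidueField x.ring)
    (IsLocalRing.ResidueField y.ring)).2 φ
  refine ⟨j, ?_⟩
  have hφ : ∀ a : y.ring, resMap y y f hyy (IsLocalRing.residue y.ring a) =
      (IsLocalRing.residue y.ring a) ^ (Nat.card k) ^ ((j : ℕ) * x.deg) := by
    intro a
    have h1 := DFunLike.congr_fun hj (IsLocalRing.residue y.ring a)
    change (FiniteField.frobeniusAlgHom (IsLocalRing.ResidueField x.ring)
      (IsLocalRing.ResidueField y.ring) ^ (j : ℕ)) (IsLocalRing.residue y.ring a) =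
      resMap y y f hyy (IsLocalRing.residue y.ring a) at h1
    rw [AlgHom.coe_pow, FiniteField.coe_frobeniusAlgHom, pow_iterate,
      ← Nat.card_eq_fintype_card, card_residue T.curve x, ← pow_mul, mul_comm] at h1
    exact h1.symm
  have hFP := frobPow T x w al hmv hfr j
  have hmj := mv_nat T w al hmv j
  refine hIn p k K L T x hx w hw n (t - j * al) ?_ ?_
  · have h1 : t - (j : ℕ) * al = t + -((j : ℕ) * al) := by ring
    rw [h1, ZpTower.mv_add, mv_neg T w _ hmj, ht]
  · intro a ha haw
    set b := T.aut (-((j : ℕ) * al)) a with hb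
    have hbw : b ∈ w := (mem_of_mv T w _ (mv_neg T w _ hmj) a).1 haw
    have hbl : b ∈ T.layer n := T.aut_layer n _ _ ha
    have hab : T.aut ((j : ℕ) * al) b = a := by
      rw [hb, ← ZpTower.aut_add, neg_add_cancel, ZpTower.aut_zero]
    have h1 : T.aut (t - (j : ℕ) * al) a = T.aut t b := by
      rw [hb, ← ZpTower.aut_add]
      congr 1
      ring
    have h2 := hφ ⟨⟨b, hbl⟩, hbw⟩
    rw [resMap_residue, ← map_pow] at h2
    have h3 := (res_pt_iff T n x w hw _ _).1 h2
    have h4 := hFP b hbw
    rw [hab] at h4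
    rw [h1]
    exact val_trans w h3 (val_symm w h4)

theorem fiber_card [Finite k] (hIn : Inert) (n : ℕ) (x : ClosedPoint k K)
    (hx : IsUnramifiedIn L x) (w : ValuationSubring L)
    (hw : w.comap (algebraMap K L) = x.ring) (al : ℤ_[p]) (hmv : T.mv al w = w)
    (hfr : ∀ a ∈ w, w.valuation (T.aut al a - a ^ (Nat.card k) ^ x.deg) < 1) :
    {y : ClosedPoint k (T.layer n) | T.below n y = x}.ncard * (T.pt n x w hw).deg =
      p ^ n * x.deg := by
  classical
  have hp : p.Prime := Fact.out
  haveI : NeZero (p ^ n) := ⟨(pow_pos hp.pos n).ne'⟩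
  set ab : ZMod (p ^ n) := PadicInt.toZModPow n al with hab
  have hdvd : ∀ z : ℤ_[p], (p : ℤ_[p]) ^ n ∣ z ↔ PadicInt.toZModPow n z = 0 := by
    intro z
    rw [← RingHom.mem_ker, PadicInt.ker_toZModPow, Ideal.mem_span_singleton]
  -- the equivalence relation
  have hrel : ∀ z z' : ℤ_[p], T.pt n x (T.mv z w) (T.mv_over x w hw z) =
      T.pt n x (T.mv z' w) (T.mv_over x w hw z') ↔
        PadicInt.toZModPow n (z' - z) ∈ AddSubgroup.zmultiples ab := by
    intro z z'
    constructor
    · intro h
      have h1 : (T.mv z w).comap (algebraMap (T.layer n) L) =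
          (T.mv z' w).comap (algebraMap (T.layer n) L) := congrArg ClosedPoint.ring h
      obtain ⟨u, hu⟩ := T.exists_mv_layer n x _ _ (T.mv_over x w hw z) h1
      rw [← ZpTower.mv_add] at hu
      have h2 : T.mv (z' - (p ^ n * u + z)) w = w := by
        have h3 := congrArg (T.mv (-(((p : ℤ_[p]) ^ n * u + z)))) hu
        rw [← ZpTower.mv_add, ← ZpTower.mv_add, neg_add_cancel, ZpTower.mv_zero] at h3
        rw [sub_eq_neg_add]
        exact h3
      obtain ⟨j, hj⟩ := stab T hIn n x hx w hw al hmv hfr _ h2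
      rw [hdvd, map_sub, map_sub, map_add, map_mul, map_mul, map_natCast] at hj
      have h0 : PadicInt.toZModPow n ((p : ℤ_[p]) ^ n) = 0 := (hdvd _).1 dvd_rfl
      rw [h0, zero_mul, zero_add, sub_eq_zero, ← map_sub] at hj
      rw [hj, ← hab, ← nsmul_eq_mul]
      exact AddSubgroup.nsmul_mem_zmultiples _ _
    · intro h
      obtain ⟨c, hc⟩ := AddSubgroup.mem_zmultiples_iff.1 h
      -- choose a natural number
      obtain ⟨j, hj⟩ : ∃ j : ℕ, (j : ZMod (p ^ n)) = (c : ZMod (p ^ n)) :=
        ⟨(c : ZMod (p ^ n)).val, by rw [ZMod.natCast_val, ZMod.cast_id]⟩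
      have h1 : (p : ℤ_[p]) ^ n ∣ z' - (z + j * al) := by
        rw [hdvd]
        have : z' - (z + j * al) = (z' - z) - j * al := by ring
        rw [this, map_sub, map_mul, map_natCast, ← hc, hj, ← hab, zsmul_eq_mul, sub_self]
      rw [T.pt_eq_of_dvd n x w hw z' (z + j * al) h1]
      apply T.pt_congr
      rw [ZpTower.mv_add, mv_nat T w al hmv j]
  -- the fiber
  let Φ : ZMod (p ^ n) → ClosedPoint k (T.layer n) := fun c => T.enum n x w hw c.val
  have hΦ : ∀ c c', Φ c = Φ c' ↔ -c + c' ∈ AddSubgroup.zmultiples ab := by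
    intro c c'
    refine (hrel _ _).trans ?_
    rw [map_sub, map_natCast, map_natCast, ZMod.natCast_val, ZMod.cast_id, ZMod.natCast_val,
      ZMod.cast_id, sub_eq_neg_add]
  have hrange : {y : ClosedPoint k (T.layer n) | T.below n y = x} = Set.range Φ := by
    rw [T.fiber_eq n x w hw]
    ext y
    constructor
    · rintro ⟨j, hj, rfl⟩
      refine ⟨(j : ZMod (p ^ n)), ?_⟩
      change T.enum n x w hw (j : ZMod (p ^ n)).val = _
      rw [ZMod.val_natCast, Nat.mod_eq_of_lt hj]
    · rintro ⟨c, rfl⟩
      exact ⟨c.val, ZMod.val_lt c, rfl⟩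
  have hcard : {y : ClosedPoint k (T.layer n) | T.below n y = x}.ncard =
      Nat.card (ZMod (p ^ n) ⧸ AddSubgroup.zmultiples ab) := by
    rw [hrange, ← Nat.card_coe_set_eq]
    symm
    refine Nat.card_eq_of_bijective (Quotient.lift (fun c => (⟨Φ c, c, rfl⟩ : Set.range Φ)) ?_) ?_
    · intro c c' h
      apply Subtype.ext
      exact (hΦ c c').2 (QuotientAddGroup.leftRel_apply.1 h)
    · constructor
      · intro u v
        refine Quotient.inductionOn₂ u v fun c c' h => ?_
        apply Quotient.sound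
        refine QuotientAddGroup.leftRel_apply.2 ((hΦ c c').1 ?_)
        exact congrArg Subtype.val h
      · rintro ⟨_, c, rfl⟩
        exact ⟨Quotient.mk _ c, rfl⟩
  have hcard2 : Nat.card (ZMod (p ^ n) ⧸ AddSubgroup.zmultiples ab) * addOrderOf ab = p ^ n := by
    have h1 := AddSubgroup.card_eq_card_quotient_mul_card_addSubgroup (AddSubgroup.zmultiples ab)
    rw [Nat.card_zmultiples, Nat.card_zmod] at h1
    exact h1.symm
  -- the degree
  obtain ⟨f, hf⟩ : x.deg ∣ (T.pt n x w hw).deg := by
    refine deg_dvd_deg T.curve (T.isCurve_layer n) x _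
      (resMap x (T.pt n x w hw) (algebraMap K (T.layer n)) ?_)
    intro a
    rw [← hw]
    rfl
  have hd : 0 < x.deg := x.deg_pos T.curve
  have hfo : addOrderOf ab = f := by
    apply Nat.dvd_antisymm
    · rw [addOrderOf_dvd_iff_nsmul_eq_zero, nsmul_eq_mul, hab, ← map_natCast (PadicInt.toZModPow n),
        ← map_mul, ← hdvd, dvd_iff T hIn n x hx w hw al hmv hfr, hf, mul_comm]
    · have h1 : (p : ℤ_[p]) ^ n ∣ (addOrderOf ab : ℕ) * al := by
        rw [hdvd, map_mul, map_natCast, ← hab, ← nsmul_eq_mul, addOrderOf_nsmul_eq_zero]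
      rw [dvd_iff T hIn n x hx w hw al hmv hfr, hf, mul_comm] at h1
      exact Nat.dvd_of_mul_dvd_mul_right hd h1
  rw [hcard, hf, ← hfo, mul_comm x.deg, ← mul_assoc, hcard2]

end

end UnrProof

open UnrProof in
theorem taskUnr : TaskUnr := by
  intro hFE hIn p _ k K L _ _ _ _ _ _ _ _ T x hx n m hm
  classical
  obtain ⟨w, hw⟩ := ZpTower.exists_over (L := L) x
  have hfrob : IsFrob x (frob x : L ≃ₐ[K] L) := Classical.epsilon_spec (hFE p k K L T x)
  obtain ⟨h1, h2⟩ := hfrob w hw
  set al := (T.iso (frob x)).toAdd with hal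
  have haut : T.aut al = frob x := T.aut_surj _
  have hmv : T.mv al w = w := by
    ext a
    rw [ZpTower.mem_mv, haut]
    exact (h1 a).symm
  have hfr : ∀ a ∈ w, w.valuation (T.aut al a - a ^ (Nat.card k) ^ x.deg) < 1 := by
    intro a ha
    rw [haut]
    exact h2 a ha
  have hd : 0 < x.deg := x.deg_pos T.curve
  have hdD : x.deg ∣ (T.pt n x w hw).deg := by
    refine deg_dvd_deg T.curve (T.isCurve_layer n) x _
      (resMap x (T.pt n x w hw) (algebraMap K (T.layer n)) ?_)
    intro a
    rw [← hw]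
    rfl
  have hiff : (x.deg ∣ m ∧ (p : ℤ_[p]) ^ n ∣ ((m / x.deg : ℕ) : ℤ_[p]) * al) ↔
      (T.pt n x w hw).deg ∣ m := by
    constructor
    · rintro ⟨h3, h4⟩
      rw [dvd_iff T hIn n x hx w hw al hmv hfr, Nat.div_mul_cancel h3] at h4
      exact h4
    · intro h3
      have h4 := hdD.trans h3
      refine ⟨h4, ?_⟩
      rw [dvd_iff T hIn n x hx w hw al hmv hfr, Nat.div_mul_cancel h4]
      exact h3
  have hF := fiber_card T hIn n x hx w hw al hmv hfr
  rw [hiff, T.contrib_eq n x m w hw]
  constructor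
  · intro h3
    rw [if_pos h3, hF]
  · intro h3
    rw [if_neg h3, mul_zero]

end Pool.Agent.H335R3.ZF
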