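import Pool.Agent.H647R3.GDef

/-!
# TaskFd of the project H647-FDS
-/

set_option autoImplicit false

open Set Topology
open scoped Pointwise

namespace H647R3.GDS

open H647R3.Fac

universe u

namespace Fd

section hull

variable {W : Type u} [NormedAddCommGroup W] [NormedSpace ℝ W]

/-- a bounded set which spans a finite-dimensional space is contained in a polytope -/
lemma exists_hull (B : Set W) (hB : Bornology.IsBounded B)
    (hfd : FiniteDimensional ℝ (Submodule.span ℝ B)) :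
    ∃ T : Finset W, B ⊆ convexHull ℝ (T : Set W) := by
  classical
  obtain ⟨b, hb, -⟩ := exists_mem_interior_convexHull_affineBasis
    (show (univ : Set (Submodule.span ℝ B)) ∈ 𝓝 0 from Filter.univ_mem)
  obtain ⟨r, hr, hball⟩ := Metric.mem_nhds_iff.1 (mem_interior_iff_mem_nhds.1 hb)
  obtain ⟨C, hC⟩ := isBounded_iff_forall_norm_le.1 hB
  set s : ℝ := 2 * (|C| + 1) / r with hs
  have hs0 : 0 < s := by positivity
  let f : Submodule.span ℝ B →ₗ[ℝ] W := s • (Submodule.span ℝ B).subtype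
  refine ⟨Finset.univ.image (fun i => f (b i)), fun v hv => ?_⟩
  have h1 : (s⁻¹ • (⟨v, Submodule.subset_span hv⟩ : Submodule.span ℝ B)) ∈
      convexHull ℝ (range b) := by
    apply hball
    rw [mem_ball_zero_iff, norm_smul, norm_inv, Real.norm_of_nonneg hs0.le,
      Submodule.coe_norm]
    have h2 := hC v hv
    have h3 := le_abs_self C
    rw [inv_mul_lt_iff₀ hs0, hs, div_mul_cancel₀ _ hr.ne']
    change ‖v‖ < _
    linarith [abs_nonneg C]
  have h2 : f (s⁻¹ • (⟨v, Submodule.subset_span hv⟩ : Submodule.span ℝ B)) = v := by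
    change s • (s⁻¹ • v) = v
    rw [smul_smul, mul_inv_cancel₀ hs0.ne', one_smul]
  have h3 : v ∈ f '' convexHull ℝ (range b) := ⟨_, h1, h2⟩
  rw [LinearMap.image_convexHull, ← range_comp] at h3
  have h4 : ((Finset.univ.image (fun i => f (b i)) : Finset W) : Set W) = range (f ∘ b) := by
    rw [Finset.coe_image, Finset.coe_univ, image_univ]
    rfl
  rw [h4]
  exact h3

/-- small second differences in finitely many directions are small uniformly on the polytope -/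
lemma sd_hull {Dom : Set W} {G : W → ℝ} (hG : ConvexOn ℝ Dom G) {z : W}
    (hSD : SD (sing W) Dom G z) (T : Finset W) {ε : ℝ} (hε : 0 < ε) :
    ∃ δ > 0, ∀ k ∈ convexHull ℝ (T : Set W), ∀ t : ℝ, 0 < t → t < δ →
      z + t • k ∈ Dom ∧ z - t • k ∈ Dom ∧ G (z + t • k) + G (z - t • k) - 2 * G z ≤ ε * t := by
  classical
  choose e he1 he2 using fun y : W => hSD {y} ⟨y, rfl⟩ ε hε
  obtain ⟨δ, hδ, hδ2⟩ := exists_pos_le_all T e he1
  refine ⟨δ, hδ, fun k hk t ht1 ht2 => ?_⟩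
  have hconv : ConvexOn ℝ {h | z + h ∈ Dom ∧ z - h ∈ Dom} (fun h => G (z + h) + G (z - h)) := by
    have e1 : ∀ (a b : ℝ) (h h' : W), a + b = 1 →
        z + (a • h + b • h') = a • (z + h) + b • (z + h') := by
      intro a b h h' hab
      calc z + (a • h + b • h') = (a + b) • z + (a • h + b • h') := by rw [hab, one_smul]
        _ = _ := by module
    have e2 : ∀ (a b : ℝ) (h h' : W), a + b = 1 →
        z - (a • h + b • h') = a • (z - h) + b • (z - h') := by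
      intro a b h h' hab
      calc z - (a • h + b • h') = (a + b) • z - (a • h + b • h') := by rw [hab, one_smul]
        _ = _ := by module
    constructor
    · intro h hh h' hh' a b ha hb hab
      refine ⟨?_, ?_⟩
      · rw [e1 a b h h' hab]
        exact hG.1 hh.1 hh'.1 ha hb hab
      · rw [e2 a b h h' hab]
        exact hG.1 hh.2 hh'.2 ha hb hab
    · intro h hh h' hh' a b ha hb hab
      have i1 := hG.2 hh.1 hh'.1 ha hb hab
      have i2 := hG.2 hh.2 hh'.2 ha hb hab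
      simp only
      rw [e1 a b h h' hab, e2 a b h h' hab]
      simp only [smul_eq_mul] at i1 i2 ⊢
      linarith
  have hT : t • (T : Set W) ⊆ {h | z + h ∈ Dom ∧ z - h ∈ Dom} := by
    rintro _ ⟨y, hy, rfl⟩
    have := he2 y y rfl t ht1 (ht2.trans_le (hδ2 y hy))
    exact ⟨this.1, this.2.1⟩
  have hk2 : t • k ∈ convexHull ℝ (t • (T : Set W)) := by
    rw [convexHull_smul]
    exact smul_mem_smul_set hk
  have hk3 := (convexHull_min hT hconv.1) hk2
  obtain ⟨y, hy1, hy2⟩ := hconv.exists_ge_of_mem_convexHull hT hk2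
  obtain ⟨y', hy', rfl⟩ := hy1
  have h5 := (he2 y' y' rfl t ht1 (ht2.trans_le (hδ2 y' hy'))).2.2
  refine ⟨hk3.1, hk3.2, ?_⟩
  simp only at hy2
  linarith

end hull

variable {X : Type u} [NormedAddCommGroup X] [NormedSpace ℝ X]

lemma Th_nhds {N : Set (Th X)} {z : Th X} (hN : N ∈ 𝓝 z) :
    ∃ (δ : ℝ) (A : Finset (JJ X)) (r : ℝ), 0 < δ ∧ 0 < r ∧
      ∀ q : Th X, ‖q.1.1 - z.1.1‖ < δ → (∀ a ∈ A, |q.1.2 a - z.1.2 a| < r) → q ∈ N := by
  rw [nhds_subtype_eq_comap, Filter.mem_comap] at hN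
  obtain ⟨N', hN', hsub⟩ := hN
  obtain ⟨u, hu, v, hv, huv⟩ := mem_nhds_prod_iff.1 (show _ ∈ 𝓝 (z.1.1, z.1.2) from hN')
  obtain ⟨δ, hδ, hδ2⟩ := Metric.mem_nhds_iff.1 hu
  rw [nhds_pi, Filter.mem_pi] at hv
  obtain ⟨J, hJ, t, ht, htV⟩ := hv
  have h2 : ∀ a, ∃ ε > 0, Metric.ball (z.1.2 a) ε ⊆ t a := fun a => Metric.mem_nhds_iff.1 (ht a)
  choose e he1 he2 using h2
  obtain ⟨r, hr, hr2⟩ := exists_pos_le_all hJ.toFinset e he1
  refine ⟨δ, hJ.toFinset, r, hδ, hr, fun q h1 h2 => hsub (huv ⟨hδ2 ?_, htV fun a ha => he2 a ?_⟩)⟩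
  · rw [mem_ball_iff_norm]
    exact h1
  · have ha' : a ∈ hJ.toFinset := hJ.mem_toFinset.2 ha
    rw [Metric.mem_ball, Real.dist_eq]
    exact (h2 a ha').trans_le (hr2 a ha')

open Classical in
/-- the lift -/
noncomputable def lam (A : Finset (JJ X)) (z : X × FS A) : Th X :=
  ⟨(z.1, fun j => if h : j ∈ A then z.2.1 ⟨j, h⟩ else j.1 z.1), by
    refine (A.countable_toSet).mono fun j hj => ?_
    by_contra h
    apply hj
    have h' : j ∉ A := h
    simp [h']⟩

lemma lam_snd (A : Finset (JJ X)) (z : X × FS A) {j : JJ X} (h : j ∈ A) :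
    (lam A z).1.2 j = z.2.1 ⟨j, h⟩ := by
  simp [lam, h]

lemma lam_snd' (A : Finset (JJ X)) (z : X × FS A) {j : JJ X} (h : j ∉ A) :
    (lam A z).1.2 j = j.1 z.1 := by
  simp [lam, h]

lemma lam_comb (A : Finset (JJ X)) (z z' : X × FS A) (a b : ℝ) :
    lam A (a • z + b • z') = a • lam A z + b • lam A z' := by
  apply Subtype.ext
  apply Prod.ext
  · rfl
  · funext j
    have e1 : (a • lam A z + b • lam A z').1.2 j = a * (lam A z).1.2 j + b * (lam A z').1.2 j := rfl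
    change (lam A (a • z + b • z')).1.2 j = (a • lam A z + b • lam A z').1.2 j
    rw [e1]
    by_cases h : j ∈ A
    · rw [lam_snd A _ h, lam_snd A _ h, lam_snd A _ h]
      rfl
    · rw [lam_snd' A _ h, lam_snd' A _ h, lam_snd' A _ h]
      have e2 : (a • z + b • z').1 = a • z.1 + b • z'.1 := rfl
      rw [e2, map_add, map_smul, map_smul, smul_eq_mul, smul_eq_mul]

/-- restriction of the coordinates -/
noncomputable def rhoL (A : Finset (JJ X)) : Th X →L[ℝ] X × FS A where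
  toFun k := (k.1.1, ⟨fun a => k.1.2 a, Set.toFinite _⟩)
  map_add' _ _ := rfl
  map_smul' _ _ := rfl
  cont := by
    refine (continuous_fst.comp continuous_subtype_val).prodMk (Continuous.subtype_mk ?_ _)
    exact continuous_pi fun a => (continuous_apply (a : JJ X)).comp
      (continuous_snd.comp continuous_subtype_val)

/-- the box -/
def Bx (A : Finset (JJ X)) (p : Th X) (δ r : ℝ) : Set (X × FS A) :=
  {z | ‖z.1 - p.1.1‖ < δ ∧ ∀ a : A, |z.2.1 a - p.1.2 a| < r}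

lemma Bx_eq (A : Finset (JJ X)) (p : Th X) (δ r : ℝ) : Bx A p δ r =
    (LinearMap.fst ℝ X (FS A)) ⁻¹' Metric.ball p.1.1 δ ∩
      ⋂ a : A, ((LinearMap.proj a : (A → ℝ) →ₗ[ℝ] ℝ).comp
        ((FS A).subtype.comp (LinearMap.snd ℝ X (FS A)))) ⁻¹' Metric.ball (p.1.2 a) r := by
  ext z
  simp only [Bx, mem_ofPred_eq, mem_inter_iff, mem_preimage, mem_iInter, Metric.mem_ball,
    Real.dist_eq, dist_eq_norm]
  exact Iff.rfl

lemma Bx_convex (A : Finset (JJ X)) (p : Th X) (δ r : ℝ) : Convex ℝ (Bx A p δ r) := by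
  rw [Bx_eq]
  refine ((convex_ball _ _).linear_preimage _).inter (convex_iInter fun a => ?_)
  exact (convex_ball _ _).linear_preimage _

lemma Bx_open (A : Finset (JJ X)) (p : Th X) (δ r : ℝ) : IsOpen (Bx A p δ r) := by
  have : Bx A p δ r = {z : X × FS A | ‖z.1 - p.1.1‖ < δ} ∩
      ⋂ a : A, {z : X × FS A | |z.2.1 a - p.1.2 a| < r} := by
    ext z
    simp [Bx]
  rw [this]
  refine (isOpen_lt (by fun_prop) continuous_const).inter (isOpen_iInter_of_finite fun a => ?_)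
  exact isOpen_lt ((((FS_cont a).comp continuous_snd).sub continuous_const).abs) continuous_const

lemma const_box {D : Set (Th X)} {g : Th X → ℝ} (hg : ConvexOn ℝ D g) {A : Finset (JJ X)}
    {p0 : Th X} {δ r M : ℝ}
    (hbox : ∀ q : Th X, ‖q.1.1 - p0.1.1‖ < δ → (∀ a ∈ A, |q.1.2 a - p0.1.2 a| < r) →
      q ∈ D ∧ g q ≤ M)
    {q q' : Th X} (h1 : q.1.1 = q'.1.1) (h2 : ∀ a ∈ A, q.1.2 a = q'.1.2 a)
    (hq1 : ‖q.1.1 - p0.1.1‖ < δ) (hq2 : ∀ a ∈ A, |q.1.2 a - p0.1.2 a| < r) : g q' = g q := by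
  have h := const_line hg (z := q) (w := q' - q) (M := M) (fun s => by
    apply hbox
    · have : (q + s • (q' - q)).1.1 = q.1.1 + s • (q'.1.1 - q.1.1) := rfl
      rw [this, ← h1, sub_self, smul_zero, add_zero]
      exact hq1
    · intro a ha
      have : (q + s • (q' - q)).1.2 a = q.1.2 a + s * (q'.1.2 a - q.1.2 a) := rfl
      rw [this, ← h2 a ha, sub_self, mul_zero, add_zero]
      exact hq2 a ha)
  rwa [add_sub_cancel] at h

open Classical in
/-- the auxiliary point -/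
noncomputable def aux (A A' : Finset (JJ X)) (p : Th X) (z : X × FS A) : Th X :=
  ⟨(z.1, fun j => if h : j ∈ A then z.2.1 ⟨j, h⟩ else if j ∈ A' then p.1.2 j else j.1 z.1), by
    refine ((A ∪ A').countable_toSet).mono fun j hj => ?_
    by_contra h
    apply hj
    have h' : j ∉ A ∪ A' := h
    rw [Finset.mem_union, not_or] at h'
    simp [h'.1, h'.2]⟩

lemma aux_snd (A A' : Finset (JJ X)) (p : Th X) (z : X × FS A) {j : JJ X} (h : j ∈ A) :
    (aux A A' p z).1.2 j = z.2.1 ⟨j, h⟩ := by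
  simp [aux, h]

lemma aux_snd' (A A' : Finset (JJ X)) (p : Th X) (z : X × FS A) {j : JJ X} (h : j ∉ A)
    (h' : j ∈ A') : (aux A A' p z).1.2 j = p.1.2 j := by
  simp [aux, h, h']

lemma G_cont {D : Set (Th X)} (hD : IsOpen D) {g : Th X → ℝ} (hgc : ContinuousOn g D)
    (hg : ConvexOn ℝ D g) {A : Finset (JJ X)} {p0 : Th X} {δ r M : ℝ}
    (hbox : ∀ q : Th X, ‖q.1.1 - p0.1.1‖ < δ → (∀ a ∈ A, |q.1.2 a - p0.1.2 a| < r) →
      q ∈ D ∧ g q ≤ M) : ContinuousOn (fun z => g (lam A z)) (Bx A p0 δ r) := by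
  have hlam : ∀ z ∈ Bx A p0 δ r, ‖(lam A z).1.1 - p0.1.1‖ < δ ∧
      (∀ a ∈ A, |(lam A z).1.2 a - p0.1.2 a| < r) := by
    intro z hz
    refine ⟨hz.1, fun a ha => ?_⟩
    rw [lam_snd A z ha]
    exact hz.2 ⟨a, ha⟩
  intro z hz
  apply ContinuousAt.continuousWithinAt
  rw [Metric.continuousAt_iff']
  intro ε hε
  have hzD := (hbox _ (hlam z hz).1 (hlam z hz).2).1
  have hN : {w : Th X | dist (g w) (g (lam A z)) < ε} ∈ 𝓝 (lam A z) :=
    (hgc.continuousAt (hD.mem_nhds hzD)).eventually (Metric.ball_mem_nhds _ hε)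
  obtain ⟨δ', A', r', hδ', hr', h'⟩ := Th_nhds hN
  have h1 : ∀ᶠ z' in 𝓝 z, z' ∈ Bx A p0 δ r := (Bx_open A p0 δ r).mem_nhds hz
  have h2 : ∀ᶠ z' in 𝓝 z, z' ∈ Bx A (lam A z) δ' r' := by
    apply (Bx_open A (lam A z) δ' r').mem_nhds
    refine ⟨?_, fun a => ?_⟩
    · have : (lam A z).1.1 = z.1 := rfl
      rw [this, sub_self, norm_zero]
      exact hδ'
    · rw [lam_snd A z a.2, sub_self, abs_zero]
      exact hr'
  filter_upwards [h1, h2] with z' hz'1 hz'2
  have h3 : g (lam A z') = g (aux A A' (lam A z) z') := by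
    refine const_box hg hbox (q := aux A A' (lam A z) z') (q' := lam A z') rfl ?_ ?_ ?_
    · intro a ha
      rw [aux_snd A A' _ _ ha, lam_snd A _ ha]
    · exact hz'1.1
    · intro a ha
      rw [aux_snd A A' _ _ ha]
      exact hz'1.2 ⟨a, ha⟩
  rw [h3]
  apply h'
  · exact hz'2.1
  · intro a ha
    by_cases haA : a ∈ A
    · rw [aux_snd A A' _ _ haA]
      exact hz'2.2 ⟨a, haA⟩
    · rw [aux_snd' A A' _ _ haA ha, sub_self, abs_zero]
      exact hr'

lemma fd_rho (hBd : TaskBd.{u}) (A : Finset (JJ X)) (B : Set (Th X))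
    (hB : Bornology.IsVonNBounded ℝ B) :
    FiniteDimensional ℝ (Submodule.span ℝ (rhoL A '' B)) := by
  haveI h1 := hBd X B hB
  set V := Submodule.span ℝ ((fun p : Th X => p.1.1) '' B) with hV
  let f : (V × FS A) →ₗ[ℝ] (X × FS A) := V.subtype.prodMap LinearMap.id
  have h2 : Submodule.span ℝ (rhoL A '' B) ≤ LinearMap.range f := by
    rw [Submodule.span_le]
    rintro _ ⟨k, hk, rfl⟩
    refine ⟨(⟨k.1.1, Submodule.subset_span ⟨k, hk, rfl⟩⟩, (rhoL A k).2), ?_⟩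
    rfl
  exact Submodule.finiteDimensional_of_le h2

end Fd

open Fd in
theorem taskFd : TaskFd.{u} := by
  intro hBd X _ _ hX D hne hD hDc g hgc hg p0 hp0
  rw [mem_closure_iff]
  intro O hO hpO
  have hN : {w | w ∈ D ∧ w ∈ O ∧ g w < g p0 + 1} ∈ 𝓝 p0 := by
    have e1 : ∀ᶠ w in 𝓝 p0, w ∈ D := hD.mem_nhds hp0
    have e2 : ∀ᶠ w in 𝓝 p0, w ∈ O := hO.mem_nhds hpO
    have e3 : ∀ᶠ w in 𝓝 p0, g w < g p0 + 1 :=
      Filter.Tendsto.eventually_lt_const (show g p0 < g p0 + 1 by linarith)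
        (hgc.continuousAt (hD.mem_nhds hp0))
    filter_upwards [e1, e2, e3] with w a b c
    exact ⟨a, b, c⟩
  obtain ⟨δ, A, r, hδ, hr, hbox0⟩ := Th_nhds hN
  have hbox : ∀ q : Th X, ‖q.1.1 - p0.1.1‖ < δ → (∀ a ∈ A, |q.1.2 a - p0.1.2 a| < r) →
      q ∈ D ∧ g q ≤ g p0 + 1 := fun q h1 h2 =>
    ⟨(hbox0 q h1 h2).1, (hbox0 q h1 h2).2.2.le⟩
  have hlam : ∀ z ∈ Bx A p0 δ r, ‖(lam A z).1.1 - p0.1.1‖ < δ ∧
      (∀ a ∈ A, |(lam A z).1.2 a - p0.1.2 a| < r) := by
    intro z hz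
    refine ⟨hz.1, fun a ha => ?_⟩
    rw [lam_snd A z ha]
    exact hz.2 ⟨a, ha⟩
  have hGconv : ConvexOn ℝ (Bx A p0 δ r) (fun z => g (lam A z)) := by
    refine ⟨Bx_convex A p0 δ r, fun z hz z' hz' a b ha hb hab => ?_⟩
    simp only
    rw [lam_comb]
    exact hg.2 (hbox _ (hlam z hz).1 (hlam z hz).2).1 (hbox _ (hlam z' hz').1 (hlam z' hz').2).1
      ha hb hab
  have hGcont := G_cont hD hgc hg hbox
  have hdense := dense_prod (𝓑E := sing X) (𝓑 := sing (X × FS A))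
    (by
      rintro B ⟨h, rfl⟩
      exact ⟨h.1, image_singleton⟩)
    (by
      rintro B ⟨h, rfl⟩ a
      exact ⟨|h.2.1 a|, fun k hk => by rw [mem_singleton_iff.1 hk]⟩)
    (fun D hne hD hDc f hfc hf => (hX D hne hD hDc f hfc hf).trans
      (closure_mono fun x hx => ⟨hx.1, sd_of_diff (gateaux_iff.1 hx.2)⟩))
    (Bx_open A p0 δ r) hGcont hGconv
  obtain ⟨z, hz, hSD⟩ : {z | z ∈ Bx A p0 δ r ∧
      SD (sing (X × FS A)) (Bx A p0 δ r) (fun z => g (lam A z)) z}.Nonempty := by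
    rw [← closure_nonempty_iff]
    refine ⟨rhoL A p0, hdense ⟨?_, fun a => ?_⟩⟩
    · change ‖p0.1.1 - p0.1.1‖ < δ
      rw [sub_self, norm_zero]
      exact hδ
    · change |p0.1.2 a - p0.1.2 a| < r
      rw [sub_self, abs_zero]
      exact hr
  have hzb := hbox0 _ (hlam z hz).1 (hlam z hz).2
  refine ⟨lam A z, hzb.2.1, hzb.1, ?_⟩
  rw [frechet_iff]
  refine diff_of_sd hD hgc hg hzb.1 (fun h => singleton_bdd h) ?_
  intro B hB ε hε
  have hB2 : Bornology.IsBounded (rhoL A '' B) :=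
    (NormedSpace.isVonNBounded_iff ℝ).1 (Bornology.IsVonNBounded.image hB (rhoL A))
  obtain ⟨T, hT⟩ := exists_hull (rhoL A '' B) hB2 (fd_rho hBd A B hB)
  obtain ⟨η, hη, h5⟩ := sd_hull hGconv hSD T hε
  refine ⟨η, hη, fun k hk t ht1 ht2 => ?_⟩
  obtain ⟨h6, h7, h8⟩ := h5 (rhoL A k) (hT ⟨k, hk, rfl⟩) t ht1 ht2
  -- comparison of the points
  have key : ∀ (q : Th X) (w : X × FS A), w ∈ Bx A p0 δ r → rhoL A q = w →
      q ∈ D ∧ g q = g (lam A w) := by
    intro q w hw hqw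
    have e1 : q.1.1 = (lam A w).1.1 := by
      rw [← hqw]
      rfl
    have e2 : ∀ a ∈ A, (lam A w).1.2 a = q.1.2 a := by
      intro a ha
      rw [lam_snd A w ha, ← hqw]
      rfl
    refine ⟨(hbox q (by rw [e1]; exact (hlam w hw).1) fun a ha => ?_).1, ?_⟩
    · rw [← e2 a ha]
      exact (hlam w hw).2 a ha
    · exact const_box hg hbox (q := lam A w) (q' := q) e1.symm e2 (hlam w hw).1 (hlam w hw).2
  have hρ : rhoL A (lam A z) = z := by
    apply Prod.ext
    · rfl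
    · apply Subtype.ext
      funext a
      change (lam A z).1.2 a = z.2.1 a
      rw [lam_snd A z a.2]
  obtain ⟨k1, k2⟩ := key (lam A z + t • k) _ h6 (by rw [map_add, map_smul, hρ])
  obtain ⟨k3, k4⟩ := key (lam A z - t • k) _ h7 (by rw [map_sub, map_smul, hρ])
  refine ⟨k1, k3, ?_⟩
  rw [k2, k4]
  exact h8

end H647R3.GDS
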