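import Pool.Agent.H862R3.Prim.Stmts

/-!
# TaskQ of the project PRIMVAR
-/

set_option autoImplicit false

namespace Pool.Agent.H862R3.Prim

namespace PVQ

theorem laws_quot {W : Set (FreeGroup ℕ)} {G : Type} [Group G] (h : Laws W G) (M : Subgroup G)
    [M.Normal] : Laws W (G ⧸ M) := by
  intro w hw f
  choose f' hf' using fun n => QuotientGroup.mk'_surjective M (f n)
  have h1 := h w hw f'
  have h2 : FreeGroup.lift f = (QuotientGroup.mk' M).comp (FreeGroup.lift f') := by
    ext n
    simp only [FreeGroup.lift_apply_of, MonoidHom.comp_apply]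
    exact (hf' n).symm
  rw [h2, MonoidHom.comp_apply, h1, map_one]

theorem mem_of_coprime {G : Type} [Group G] [Finite G] {q : ℕ} (Q : Subgroup G) [Q.Normal]
    (hq : Nat.Coprime q Q.index) (x : G) (hx : ∃ k : ℕ, x ^ q ^ k = 1) : x ∈ Q := by
  obtain ⟨k, hk⟩ := hx
  rw [← QuotientGroup.eq_one_iff, ← orderOf_eq_one_iff]
  apply Nat.eq_one_of_dvd_coprimes (Nat.Coprime.pow_left k hq)
  · apply orderOf_dvd_of_pow_eq_one
    rw [← QuotientGroup.mk_pow, hk]
    rfl
  · exact orderOf_dvd_natCard _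

theorem step {W : Set (FreeGroup ℕ)} {q : ℕ} (hq : q.Prime) (hT : Triv W q) {G : Type} [Group G]
    [Finite G] (hW : Laws W G) (M : Subgroup G) [M.Normal] (hM : Comm M) {p : ℕ} (hp : p.Prime)
    (hMp : ∀ x ∈ M, x ^ p = 1) (R : Subgroup (G ⧸ M)) [R.Normal]
    (hR : ∀ x ∈ R, ∃ k : ℕ, x ^ q ^ k = 1) (hRi : Nat.Coprime q R.index) :
    ∃ Q : Subgroup G, Q.Normal ∧ (∀ x ∈ Q, ∃ k : ℕ, x ^ q ^ k = 1) ∧ Nat.Coprime q Q.index := by
  haveI : Fact q.Prime := ⟨hq⟩
  by_cases hpq : p = q
  · subst hpq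
    refine ⟨R.comap (QuotientGroup.mk' M), inferInstance, ?_, ?_⟩
    · intro x hx
      obtain ⟨k, hk⟩ := hR _ (Subgroup.mem_comap.1 hx)
      refine ⟨k + 1, ?_⟩
      rw [← map_pow] at hk
      have h1 : x ^ p ^ k ∈ M := (QuotientGroup.eq_one_iff _).1 hk
      rw [pow_succ, pow_mul]
      exact hMp _ h1
    · rw [Subgroup.index_comap_of_surjective _ (QuotientGroup.mk'_surjective M)]
      exact hRi
  · obtain ⟨S⟩ : Nonempty (Sylow q G) := inferInstance
    have hSq : ∀ s ∈ (S : Subgroup G), ∃ k : ℕ, s ^ q ^ k = 1 := by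
      intro s hs
      obtain ⟨k, hk⟩ := S.isPGroup' ⟨s, hs⟩
      exact ⟨k, by simpa using congrArg Subtype.val hk⟩
    refine ⟨S, ⟨?_⟩, hSq, ?_⟩
    · intro s hs g
      set S' : Sylow q (G ⧸ M) := S.mapSurjective (QuotientGroup.mk'_surjective M) with hS'
      have hRp : IsPGroup q R := by
        intro x
        obtain ⟨k, hk⟩ := hR x x.2
        exact ⟨k, Subtype.ext (by simpa using hk)⟩
      have hle : R ≤ (S' : Subgroup (G ⧸ M)) := by
        have h1 : IsPGroup q (R ⊔ (S' : Subgroup (G ⧸ M)) : Subgroup (G ⧸ M)) :=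
          IsPGroup.to_sup_of_normal_left hRp S'.isPGroup'
        have h2 := S'.is_maximal' h1 le_sup_right
        rw [← h2]
        exact le_sup_left
      have hyq : ∃ k : ℕ, (g * s * g⁻¹) ^ q ^ k = 1 := by
        obtain ⟨k, hk⟩ := hSq s hs
        exact ⟨k, by rw [conj_pow, hk, mul_one, mul_inv_cancel]⟩
      have hyR : QuotientGroup.mk' M (g * s * g⁻¹) ∈ R := by
        apply mem_of_coprime R hRi
        obtain ⟨k, hk⟩ := hyq
        exact ⟨k, by rw [← map_pow, hk, map_one]⟩
      have hyS := hle hyR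
      rw [hS', Sylow.coe_mapSurjective, Subgroup.mem_map] at hyS
      obtain ⟨s1, hs1, he⟩ := hyS
      -- y = s1 * m
      have hm : s1⁻¹ * (g * s * g⁻¹) ∈ M := by
        rw [← QuotientGroup.eq]
        exact he
      set m := s1⁻¹ * (g * s * g⁻¹) with hmdef
      have hy : g * s * g⁻¹ = s1 * m := by rw [hmdef, mul_inv_cancel_left]
      obtain ⟨k1, hk1⟩ := hSq s1 hs1
      obtain ⟨k2, hk2⟩ := hyq
      have hcomm : Commute s1 m :=
        hT G hW M inferInstance hM p hp hpq hMp s1 ⟨k1, hk1⟩ m hm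
      have h1 : (s1 * m) ^ q ^ (k1 + k2) = 1 := by
        rw [← hy, pow_add, mul_comm, pow_mul, hk2, one_pow]
      have h2 : s1 ^ q ^ (k1 + k2) = 1 := by
        rw [pow_add, pow_mul, hk1, one_pow]
      rw [hcomm.mul_pow, h2, one_mul] at h1
      have h3 : m = 1 := by
        rw [← orderOf_eq_one_iff]
        have hcop : Nat.Coprime (q ^ (k1 + k2)) p :=
          Nat.Coprime.pow_left _ ((Nat.coprime_primes hq hp).2 (Ne.symm hpq))
        exact Nat.eq_one_of_dvd_coprimes hcop (orderOf_dvd_of_pow_eq_one h1)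
          (orderOf_dvd_of_pow_eq_one (hMp m hm))
      rw [hy, h3, mul_one]
      exact hs1
    · exact (Nat.Prime.coprime_iff_not_dvd hq).2 S.not_dvd_index

end PVQ

open PVQ in
theorem taskQ : TaskQ := by
  intro hE W q hq hT
  have key : ∀ n : ℕ, ∀ (G : Type) [Group G] [Finite G], Nat.card G = n → Group.IsSolvable G →
      Laws W G → ∃ Q : Subgroup G, Q.Normal ∧ (∀ x ∈ Q, ∃ k : ℕ, x ^ q ^ k = 1) ∧
        Nat.Coprime q Q.index := by
    intro n
    induction n using Nat.strong_induction_on with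
    | _ n ih =>
      intro G _ _ hn hs hW
      rcases subsingleton_or_nontrivial G with hG | hG
      · refine ⟨⊤, inferInstance, fun x _ => ⟨0, Subsingleton.elim _ _⟩, ?_⟩
        rw [Subgroup.index_top]
        exact Nat.coprime_one_right q
      · obtain ⟨M, -, hM0, hMn, hMc, p, hp, hMp⟩ := hE G ⊤ hs inferInstance (by
          intro h
          exact bot_ne_top h.symm)
        haveI := hMn
        haveI := hs
        have hcard : Nat.card (G ⧸ M) < n := by
          have h1 := M.card_eq_card_quotient_mul_card_subgroup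
          have h2 : 1 < Nat.card M := by
            rw [Subgroup.one_lt_card_iff_ne_bot]
            exact hM0
          have h3 : 0 < Nat.card (G ⧸ M) := Nat.card_pos
          rw [← hn, h1]
          exact lt_mul_of_one_lt_right h3 h2
        have hs' : Group.IsSolvable (G ⧸ M) :=
          Group.isSolvable_of_surjective (QuotientGroup.mk'_surjective M)
        obtain ⟨R, hR1, hR2, hR3⟩ := ih _ hcard (G ⧸ M) rfl hs' (laws_quot hW M)
        haveI := hR1
        exact step hq hT hW M hMc hp hMp R hR2 hR3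
  intro G _ _ hs hW
  exact key _ G rfl hs hW

end Pool.Agent.H862R3.Prim
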