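import Pool.Agent.H889R3.RQ.Stmts

/-!
# RQ.C3: Borel-Cantelli
-/

set_option autoImplicit false

namespace Pool.Agent.H889R3.RQ

open MeasureTheory Filter
open Pool.Agent.H628R3.RO (randomOracle)

namespace C3

theorem core {Ω : Type} [MeasurableSpace Ω] (μ : Measure Ω) [IsProbabilityMeasure μ] (k : ℕ)
    (B : List Bool → Set Ω) (hB : ∀ x, MeasurableSet (B x))
    (hμ : ∀ x : List Bool, μ.real (B x) ≤ 1 / ((x.length : ℝ) + 2) ^ (k + 2)) :
    ∀ᵐ A ∂μ, ∀ᶠ n : ℕ in Filter.atTop,
      (({x : Fin n → Bool | A ∈ B (List.ofFn x)}.ncard : ℕ) : ℝ) * n ^ k ≤ 2 ^ n := by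
  classical
  set X : ℕ → Ω → ℝ := fun n A =>
    ∑ x : Fin n → Bool, (B (List.ofFn x)).indicator (fun _ => (1 : ℝ)) A with hX
  have hXn : ∀ n A, (({x : Fin n → Bool | A ∈ B (List.ofFn x)}.ncard : ℕ) : ℝ) = X n A := by
    intro n A
    have h1 : {x : Fin n → Bool | A ∈ B (List.ofFn x)} =
        ((Finset.univ.filter fun x : Fin n → Bool => A ∈ B (List.ofFn x)) : Set (Fin n → Bool)) := by
      ext x
      simp
    rw [h1, Set.ncard_coe_finset, Finset.card_filter, hX]
    push_cast
    refine Finset.sum_congr rfl fun x _ => ?_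
    rw [Set.indicator_apply]
  have hX0 : ∀ n A, 0 ≤ X n A := fun n A =>
    Finset.sum_nonneg fun x _ => Set.indicator_nonneg (fun _ _ => zero_le_one) _
  have hint1 : ∀ x : List Bool, Integrable ((B x).indicator (fun _ => (1 : ℝ))) μ := fun x =>
    (integrable_const (1 : ℝ)).indicator (hB x)
  have hint : ∀ n, Integrable (X n) μ := fun n =>
    integrable_finsetSum _ fun x _ => hint1 _
  have hI : ∀ n, ∫ A, X n A ∂μ ≤ 2 ^ n * (1 / ((n : ℝ) + 2) ^ (k + 2)) := by
    intro n
    have h1 : ∫ A, X n A ∂μ = ∑ x : Fin n → Bool, μ.real (B (List.ofFn x)) := by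
      rw [hX]
      rw [integral_finsetSum _ fun x _ => hint1 _]
      refine Finset.sum_congr rfl fun x _ => ?_
      rw [integral_indicator_const _ (hB _), smul_eq_mul, mul_one]
    rw [h1]
    calc ∑ x : Fin n → Bool, μ.real (B (List.ofFn x))
        ≤ ∑ _x : Fin n → Bool, (1 / ((n : ℝ) + 2) ^ (k + 2)) := by
          refine Finset.sum_le_sum fun x _ => ?_
          have := hμ (List.ofFn x)
          rwa [List.length_ofFn] at this
      _ = 2 ^ n * (1 / ((n : ℝ) + 2) ^ (k + 2)) := by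
          rw [Finset.sum_const, Finset.card_univ, Fintype.card_fun, Fintype.card_bool,
            Fintype.card_fin, nsmul_eq_mul]
          push_cast
          ring
  set s : ℕ → Set Ω := fun n => {A | 2 ^ n < X n A * n ^ k} with hs
  have hb : ∀ n, μ.real (s n) ≤ 4 * (1 / ((n : ℝ) + 2) ^ 2) := by
    intro n
    rcases Nat.eq_zero_or_pos n with h0 | h0
    · subst h0
      refine (measureReal_le_one).trans ?_
      norm_num
    · have hn : (0 : ℝ) < (n : ℝ) ^ k := by positivity
      set ε : ℝ := 2 ^ n / (n : ℝ) ^ k with hε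
      have hε0 : 0 < ε := by positivity
      have h1 := mul_meas_ge_le_integral_of_nonneg (Filter.Eventually.of_forall (hX0 n)) (hint n) ε
      have h2 : s n ⊆ {A | ε ≤ X n A} := by
        intro A hA
        have hA' : (2 : ℝ) ^ n < X n A * n ^ k := hA
        change ε ≤ X n A
        rw [hε, div_le_iff₀ hn]
        exact hA'.le
      have h3 : μ.real (s n) ≤ μ.real {A | ε ≤ X n A} := measureReal_mono h2
      have h4 : ε * μ.real (s n) ≤ 2 ^ n * (1 / ((n : ℝ) + 2) ^ (k + 2)) :=
        ((mul_le_mul_of_nonneg_left h3 hε0.le).trans h1).trans (hI n)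
      have h5 : μ.real (s n) ≤ (n : ℝ) ^ k / ((n : ℝ) + 2) ^ (k + 2) := by
        rw [hε, div_mul_eq_mul_div, div_le_iff₀ hn] at h4
        have h6 : (0 : ℝ) < 2 ^ n := by positivity
        have h7 : 2 ^ n * μ.real (s n) ≤ 2 ^ n * ((n : ℝ) ^ k / ((n : ℝ) + 2) ^ (k + 2)) := by
          refine h4.trans (le_of_eq ?_)
          ring
        exact le_of_mul_le_mul_left h7 h6
      refine h5.trans ?_
      have h8 : (n : ℝ) ^ k ≤ ((n : ℝ) + 2) ^ k :=
        pow_le_pow_left₀ (by positivity) (by linarith) k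
      have h9 : (0 : ℝ) < ((n : ℝ) + 2) ^ k := by positivity
      rw [pow_add, div_le_iff₀ (by positivity)]
      have h10 : 4 * (1 / ((n : ℝ) + 2) ^ 2) * (((n : ℝ) + 2) ^ k * ((n : ℝ) + 2) ^ 2) =
          4 * ((n : ℝ) + 2) ^ k := by
        field_simp
      rw [h10]
      linarith
  have hsum : Summable fun n : ℕ => 4 * (1 / ((n : ℝ) + 2) ^ 2) := by
    apply Summable.mul_left
    have h1 : Summable fun n : ℕ => 1 / ((n : ℝ)) ^ 2 := Real.summable_one_div_nat_pow.2 (by norm_num)
    have h2 := (summable_nat_add_iff 2).2 h1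
    refine h2.congr fun n => ?_
    push_cast
    rfl
  have hne : ∑' n, μ (s n) ≠ ⊤ := by
    have h1 : ∑' n, μ (s n) ≤ ∑' n : ℕ, ENNReal.ofReal (4 * (1 / ((n : ℝ) + 2) ^ 2)) := by
      refine ENNReal.tsum_le_tsum fun n => ?_
      rw [← ofReal_measureReal]
      exact ENNReal.ofReal_le_ofReal (hb n)
    exact ne_top_of_le_ne_top hsum.tsum_ofReal_ne_top h1
  filter_upwards [ae_eventually_notMem hne] with A hA
  filter_upwards [hA] with n hn
  rw [hXn]
  exact not_lt.1 hn

end C3

theorem c3 : St_C3 := by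
  intro k B hB hμ
  haveI : IsProbabilityMeasure randomOracle := inferInstanceAs (IsProbabilityMeasure
    (Measure.infinitePi (fun _ : List Bool => Pool.Agent.H628R3.RO.coin)))
  exact C3.core _ k B hB hμ

end Pool.Agent.H889R3.RQ
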